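import Pool.Agent.Lib.MP_c7af3c_ag.ELL.H90.Suma

/-!
# MP_c7af3c_ag, project ELL: module MULC, the addition of affine points is locally a morphism
-/

set_option autoImplicit false

namespace Pool.Agent.Ell.H90

open AlgebraicGeometry CategoryTheory CategoryTheory.Limits MonoidalCategory
  CartesianMonoidalCategory Pool.Agent.Ell
open scoped TensorProduct

/-- the slope exists where the points are not opposite -/
theorem exists_l {A : Type} [CommRing A] (x₁ y₁ x₂ y₂ v : A) (h1 : OnC x₁ y₁) (h2 : OnC x₂ y₂)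
    (h : (x₁ - x₂) * v = 1 ∨ (y₁ + y₂) * v = 1) :
    ∃ l, l * (x₁ - x₂) = y₁ - y₂ ∧ l * (y₁ + y₂) = x₁ ^ 2 + x₁ * x₂ + x₂ ^ 2 - 1 := by
  unfold OnC at *
  rcases h with h | h
  · refine ⟨(y₁ - y₂) * v, ?_, ?_⟩
    · linear_combination (y₁ - y₂) * h
    · linear_combination v * h1 - v * h2 + (x₁ ^ 2 + x₁ * x₂ + x₂ ^ 2 - 1) * h
  · refine ⟨(x₁ ^ 2 + x₁ * x₂ + x₂ ^ 2 - 1) * v, ?_, ?_⟩
    · linear_combination -v * h1 + v * h2 + (y₁ - y₂) * h
    · linear_combination (x₁ ^ 2 + x₁ * x₂ + x₂ ^ 2 - 1) * h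

theorem OnC.map {A A' : Type} [CommRing A] [CommRing A'] (f : A →+* A') {a b : A}
    (h : OnC a b) : OnC (f a) (f b) := by
  unfold OnC at *
  rw [← map_pow, h, map_sub, map_pow]

/-- a point of an affine scheme over `k` is an algebra homomorphism -/
theorem exists_algHom {k A : Type} [Field k] [CommRing A] [Algebra k A]
    (q : PT k ⟶ Over.mk (Spec.map (CommRingCat.ofHom (algebraMap k A)))) :
    ∃ f : A →ₐ[k] k, q.left = Spec.map (CommRingCat.ofHom (f : A →+* k)) := by
  obtain ⟨φ, hφ⟩ := Spec.map_surjective q.left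
  have hw : q.left ≫ Spec.map (CommRingCat.ofHom (algebraMap k A)) = 𝟙 _ := Over.w q
  have h1 : CommRingCat.ofHom (algebraMap k A) ≫ φ = 𝟙 (CommRingCat.of k) := by
    apply Spec.map_injective
    rw [Spec.map_comp, hφ, Spec.map_id]
    exact hw
  let f : A →ₐ[k] k :=
    { φ.hom with
      commutes' := fun r => by
        have := congrArg (fun g : CommRingCat.of k ⟶ CommRingCat.of k => g.hom r) h1
        exact this }
  exact ⟨f, hφ.symm⟩

/-- the point given by an algebra homomorphism -/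
noncomputable def ptA {k A : Type} [Field k] [CommRing A] [Algebra k A] (f : A →ₐ[k] k) :
    PT k ⟶ Over.mk (Spec.map (CommRingCat.ofHom (algebraMap k A))) :=
  Over.homMk (Spec.map (CommRingCat.ofHom (f : A →+* k))) (by
    change Spec.map _ ≫ Spec.map _ = 𝟙 _
    rw [← Spec.map_comp, ← CommRingCat.ofHom_comp, AlgHom.comp_algebraMap]
    exact Spec.map_id _)

theorem eq_ptA {k A : Type} [Field k] [CommRing A] [Algebra k A]
    (q : PT k ⟶ Over.mk (Spec.map (CommRingCat.ofHom (algebraMap k A)))) :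
    ∃ f : A →ₐ[k] k, q = ptA f := by
  obtain ⟨f, hf⟩ := exists_algHom q
  refine ⟨f, ?_⟩
  apply Over.OverMorphism.ext
  exact hf

theorem ptA_morC {k A : Type} [Field k] [CommRing A] [Algebra k A] (f : A →ₐ[k] k) (a b : A)
    (h : OnC a b) : ptA f ≫ morC a b h = ptC (f a) (f b) (OnC.map (f : A →+* k) h) := by
  apply Over.OverMorphism.ext
  change Spec.map _ ≫ Spec.map _ = Spec.map _
  rw [← Spec.map_comp, ← CommRingCat.ofHom_comp]
  have h1 : f.comp (bHom (R := k) a b h) = bHom (R := k) (f a) (f b)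
      (OnC.map (f : A →+* k) h) := by
    apply bHom_ext
    · rw [AlgHom.comp_apply, bHom_bx, bHom_bx]
    · rw [AlgHom.comp_apply, bHom_by, bHom_by]
  exact congrArg (fun g : B k →ₐ[k] k => Spec.map (CommRingCat.ofHom (g : B k →+* k))) h1

theorem ptC_inj {k : Type} [Field k] {a b a' b' : k} {h : OnC a b} {h' : OnC a' b'}
    (e : ptC a b h = ptC a' b' h') : a = a' ∧ b = b' := by
  have h1 : Spec.map (CommRingCat.ofHom (bHom (R := k) a b h : B k →+* k))
      = Spec.map (CommRingCat.ofHom (bHom (R := k) a' b' h' : B k →+* k)) :=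
    congrArg (fun g => g.left) e
  have h2 := Spec.map_injective h1
  have h3 : (bHom (R := k) a b h : B k →+* k) = (bHom (R := k) a' b' h' : B k →+* k) := by
    have := congrArg (fun g => CommRingCat.Hom.hom g) h2
    exact this
  constructor
  · have := congrArg (fun g : B k →+* k => g (bx k)) h3
    simpa using this
  · have := congrArg (fun g : B k →+* k => g (by' k)) h3
    simpa using this

/-- the ring of the product -/
abbrev AA (k : Type) [Field k] : Type := B k ⊗[k] B k

section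

variable (k : Type) [Field k]

noncomputable def p1 : B k →ₐ[k] AA k := Algebra.TensorProduct.includeLeft
noncomputable def p2 : B k →ₐ[k] AA k := Algebra.TensorProduct.includeRight

/-- the two functions -/
noncomputable def dd (i : Fin 2) : AA k :=
  ![p1 k (bx k) - p2 k (bx k), p1 k (by' k) + p2 k (by' k)] i

/-- the two localizations -/
abbrev Ai (i : Fin 2) : Type := Localization.Away (dd k i)

noncomputable def toAi (i : Fin 2) : AA k →ₐ[k] Ai k i :=
  IsScalarTower.toAlgHom k (AA k) (Ai k i)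

noncomputable abbrev X1 (i : Fin 2) : Ai k i := toAi k i (p1 k (bx k))
noncomputable abbrev Y1 (i : Fin 2) : Ai k i := toAi k i (p1 k (by' k))
noncomputable abbrev X2 (i : Fin 2) : Ai k i := toAi k i (p2 k (bx k))
noncomputable abbrev Y2 (i : Fin 2) : Ai k i := toAi k i (p2 k (by' k))

theorem on1 (i : Fin 2) : OnC (X1 k i) (Y1 k i) :=
  OnC.map ((toAi k i).comp (p1 k) : B k →+* Ai k i) (onC_b k)

theorem on2 (i : Fin 2) : OnC (X2 k i) (Y2 k i) :=
  OnC.map ((toAi k i).comp (p2 k) : B k →+* Ai k i) (onC_b k)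

theorem dd_unit (i : Fin 2) : (X1 k i - X2 k i) * IsLocalization.Away.invSelf (dd k i) = 1 ∨
    (Y1 k i + Y2 k i) * IsLocalization.Away.invSelf (dd k i) = 1 := by
  have h : algebraMap (AA k) (Ai k i) (dd k i) * IsLocalization.Away.invSelf (dd k i) = 1 :=
    IsLocalization.Away.mul_invSelf _
  fin_cases i
  · left
    rw [← h]
    apply congrArg (· * _)
    exact (map_sub (algebraMap (AA k) (Ai k 0)) _ _).symm
  · right
    rw [← h]
    apply congrArg (· * _)
    exact (map_add (algebraMap (AA k) (Ai k 1)) _ _).symm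

theorem exists_ll (i : Fin 2) : ∃ l : Ai k i, l * (X1 k i - X2 k i) = Y1 k i - Y2 k i ∧
    l * (Y1 k i + Y2 k i) = X1 k i ^ 2 + X1 k i * X2 k i + X2 k i ^ 2 - 1 :=
  exists_l _ _ _ _ _ (on1 k i) (on2 k i) (dd_unit k i)

noncomputable def ll (i : Fin 2) : Ai k i := (exists_ll k i).choose

theorem ll1 (i : Fin 2) : ll k i * (X1 k i - X2 k i) = Y1 k i - Y2 k i :=
  (exists_ll k i).choose_spec.1

theorem ll2 (i : Fin 2) :
    ll k i * (Y1 k i + Y2 k i) = X1 k i ^ 2 + X1 k i * X2 k i + X2 k i ^ 2 - 1 :=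
  (exists_ll k i).choose_spec.2

/-- the open pieces -/
noncomputable def UU (i : Fin 2) : Over (Spec (CommRingCat.of k)) :=
  Over.mk (Spec.map (CommRingCat.ofHom (algebraMap k (Ai k i))))

noncomputable def uu (i : Fin 2) : UU k i ⟶ CC k ⊗ CC k :=
  lift (morC (X1 k i) (Y1 k i) (on1 k i)) (morC (X2 k i) (Y2 k i) (on2 k i))

noncomputable def ff (i : Fin 2) : UU k i ⟶ CC k :=
  morC _ _ (sum_alg _ _ _ _ (ll k i) (on1 k i) (on2 k i) (ll1 k i) (ll2 k i))

theorem bHom_p1 (i : Fin 2) :
    bHom (R := k) (X1 k i) (Y1 k i) (on1 k i) = (toAi k i).comp (p1 k) := by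
  apply bHom_ext
  · rw [bHom_bx]; rfl
  · rw [bHom_by]; rfl

theorem bHom_p2 (i : Fin 2) :
    bHom (R := k) (X2 k i) (Y2 k i) (on2 k i) = (toAi k i).comp (p2 k) := by
  apply bHom_ext
  · rw [bHom_bx]; rfl
  · rw [bHom_by]; rfl

/-- the open immersion into the spectrum of the tensor product -/
noncomputable def vv (i : Fin 2) : Spec (CommRingCat.of (Ai k i)) ⟶
    pullback (Spec.map (CommRingCat.ofHom (algebraMap k (B k))))
      (Spec.map (CommRingCat.ofHom (algebraMap k (B k)))) :=
  Spec.map (CommRingCat.ofHom (algebraMap (AA k) (Ai k i))) ≫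
      (pullbackSpecIso k (B k) (B k)).inv

theorem vv_fst (i : Fin 2) : vv k i ≫ pullback.fst _ _ = Spec.map (CommRingCat.ofHom
    (bHom (R := k) (X1 k i) (Y1 k i) (on1 k i) : B k →+* Ai k i)) := by
  unfold vv
  rw [Category.assoc, pullbackSpecIso_inv_fst, ← Spec.map_comp, ← CommRingCat.ofHom_comp, bHom_p1]
  rfl

theorem vv_snd (i : Fin 2) : vv k i ≫ pullback.snd _ _ = Spec.map (CommRingCat.ofHom
    (bHom (R := k) (X2 k i) (Y2 k i) (on2 k i) : B k →+* Ai k i)) := by
  unfold vv
  rw [Category.assoc, pullbackSpecIso_inv_snd, ← Spec.map_comp, ← CommRingCat.ofHom_comp, bHom_p2]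
  rfl

instance vv_open (i : Fin 2) : IsOpenImmersion (vv k i) := by
  have h1 : IsOpenImmersion (Spec.map (CommRingCat.ofHom (algebraMap (AA k) (Ai k i)))) :=
    inferInstanceAs (IsOpenImmersion (Spec.map (CommRingCat.ofHom
      (algebraMap (AA k) (Localization.Away (dd k i))))))
  unfold vv
  exact IsOpenImmersion.comp _ _

theorem uu_left (i : Fin 2) : (uu k i).left = vv k i := by
  refine pullback.hom_ext (f := sC k) (g := sC k) ?_ ?_
  · have h1 : (uu k i).left ≫ pullback.fst _ _ = (uu k i ≫ fst _ _).left := rfl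
    have h2 : uu k i ≫ fst _ _ = morC (X1 k i) (Y1 k i) (on1 k i) := lift_fst _ _
    exact (h1.trans (congrArg (fun g => g.left) h2)).trans (vv_fst k i).symm
  · have h1 : (uu k i).left ≫ pullback.snd _ _ = (uu k i ≫ snd _ _).left := rfl
    have h2 : uu k i ≫ snd _ _ = morC (X2 k i) (Y2 k i) (on2 k i) := lift_snd _ _
    exact (h1.trans (congrArg (fun g => g.left) h2)).trans (vv_snd k i).symm

theorem uu_open (i : Fin 2) : IsOpenImmersion (uu k i).left := by
  rw [uu_left]
  exact vv_open k i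

end

theorem mulc : MulcStatement := by
  intro k _ _ _
  refine ⟨UU k, uu k, ff k, fun i => uu_open k i, ?_, ?_⟩
  · intro i q a b h a' b' h' e1 e2
    obtain ⟨φ, rfl⟩ := eq_ptA q
    have h1 : uu k i ≫ fst _ _ = morC (X1 k i) (Y1 k i) (on1 k i) := lift_fst _ _
    have h2 : uu k i ≫ snd _ _ = morC (X2 k i) (Y2 k i) (on2 k i) := lift_snd _ _
    rw [h1] at e1
    rw [h2] at e2
    obtain ⟨ea, eb⟩ := ptC_inj ((ptA_morC φ _ _ (on1 k i)).symm.trans e1)
    obtain ⟨ea', eb'⟩ := ptC_inj ((ptA_morC φ _ _ (on2 k i)).symm.trans e2)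
    have l1 := congrArg φ (ll1 k i)
    have l2 := congrArg φ (ll2 k i)
    simp only [map_mul, map_sub, map_add, map_pow, map_one] at l1 l2
    rw [ea, ea', eb, eb'] at l1 l2
    have hne : a ≠ a' ∨ b + b' ≠ 0 := by
      rcases dd_unit k i with hu | hu
      · left
        intro hc
        have := congrArg φ hu
        rw [map_mul, map_sub, map_one, ea, ea', hc, sub_self, zero_mul] at this
        exact zero_ne_one this
      · right
        intro hc
        have := congrArg φ hu
        rw [map_mul, map_add, map_one, eb, eb', hc, zero_mul] at this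
        exact zero_ne_one this
    refine ⟨_, _, sum_alg a b a' b' (φ (ll k i)) h h' l1 l2, ?_,
      suma.2.1 k a b a' b' (φ (ll k i)) h h' l1 l2 hne⟩
    have h3 := ptA_morC φ _ _ (sum_alg _ _ _ _ (ll k i) (on1 k i) (on2 k i) (ll1 k i) (ll2 k i))
    refine h3.trans ?_
    have e3 : φ (ll k i ^ 2 - X1 k i - X2 k i) = φ (ll k i) ^ 2 - a - a' := by
      rw [map_sub, map_sub, map_pow, ea, ea']
    have e4 : φ (-(ll k i * (ll k i ^ 2 - X1 k i - X2 k i - X1 k i) + Y1 k i))
        = -(φ (ll k i) * (φ (ll k i) ^ 2 - a - a' - a) + b) := by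
      rw [map_neg, map_add, map_mul, map_sub, e3, ea, eb]
    congr 1
  · intro a b h a' b' h' hs
    have hne := suma.2.2 k a b a' b' h h' hs
    -- the point of the product
    obtain ⟨ψ, hψ⟩ : ∃ ψ : AA k →ₐ[k] k, ψ = Algebra.TensorProduct.productMap
      (bHom (R := k) a b h) (bHom (R := k) a' b' h') := ⟨_, rfl⟩
    have hψ1 : ∀ z, ψ (p1 k z) = bHom (R := k) a b h z := by
      intro z; rw [hψ]; simp [p1]
    have hψ2 : ∀ z, ψ (p2 k z) = bHom (R := k) a' b' h' z := by
      intro z; rw [hψ]; simp [p2]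
    obtain ⟨i, hi⟩ : ∃ i : Fin 2, ψ (dd k i) ≠ 0 := by
      rcases hne with hn | hn
      · refine ⟨0, ?_⟩
        change ψ (p1 k (bx k) - p2 k (bx k)) ≠ 0
        rw [map_sub, hψ1, hψ2, bHom_bx, bHom_bx]
        exact sub_ne_zero.2 hn
      · refine ⟨1, ?_⟩
        change ψ (p1 k (by' k) + p2 k (by' k)) ≠ 0
        rw [map_add, hψ1, hψ2, bHom_by, bHom_by]
        exact hn
    have hu : IsUnit ((ψ : AA k →+* k) (dd k i)) := hi.isUnit
    let θ : Ai k i →ₐ[k] k :=
      { IsLocalization.Away.lift (dd k i) (g := (ψ : AA k →+* k)) hu with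
        commutes' := fun r => by
          have h1 : algebraMap k (Ai k i) r = algebraMap (AA k) (Ai k i) (algebraMap k (AA k) r) := by
            rw [← IsScalarTower.algebraMap_apply]
          rw [h1]
          refine (IsLocalization.Away.lift_eq (dd k i) (g := (ψ : AA k →+* k)) hu _).trans ?_
          change ψ _ = _
          rw [ψ.commutes] }
    have hθ : ∀ z, θ (toAi k i z) = ψ z := fun z =>
      IsLocalization.Away.lift_eq (dd k i) (g := (ψ : AA k →+* k)) hu z
    refine ⟨i, ptA θ, ?_⟩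
    have h1 : uu k i ≫ fst _ _ = morC (X1 k i) (Y1 k i) (on1 k i) := lift_fst _ _
    have h2 : uu k i ≫ snd _ _ = morC (X2 k i) (Y2 k i) (on2 k i) := lift_snd _ _
    apply hom_ext
    · rw [Category.assoc, h1, lift_fst]
      refine (ptA_morC θ _ _ (on1 k i)).trans ?_
      have e1 : θ (X1 k i) = a := by rw [hθ, hψ1, bHom_bx]
      have e2 : θ (Y1 k i) = b := by rw [hθ, hψ1, bHom_by]
      congr 1
    · rw [Category.assoc, h2, lift_snd]
      refine (ptA_morC θ _ _ (on2 k i)).trans ?_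
      have e1 : θ (X2 k i) = a' := by rw [hθ, hψ2, bHom_bx]
      have e2 : θ (Y2 k i) = b' := by rw [hθ, hψ2, bHom_by]
      congr 1

end Pool.Agent.Ell.H90
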