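import Pool.Agent.Lib.MP_c7af3c_ag.ELL.Iface

/-!
# MP_c7af3c_ag, project ELL: module SUMA, the sum of two affine points
-/

set_option autoImplicit false

namespace Pool.Agent.Ell.H90

open AlgebraicGeometry CategoryTheory CategoryTheory.Limits Pool.Agent.Ell

theorem aff_nonsingular {k : Type} [Field k] [CharZero k] {a b : k} (h : OnC a b) :
    (W k).Nonsingular a b := by
  unfold OnC at h
  rw [WeierstrassCurve.Affine.nonsingular_iff]
  refine ⟨?_, ?_⟩
  · rw [WeierstrassCurve.Affine.equation_iff]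
    linear_combination h
  · simp only [zero_mul, mul_zero, add_zero, sub_zero, ne_eq]
    by_contra hc
    push Not at hc
    obtain ⟨h1, h2⟩ := hc
    have hb : b = 0 := by
      have h3 : (2 : k) * b = 0 := by linear_combination h2
      rcases mul_eq_zero.1 h3 with h4 | h4
      · exact absurd h4 two_ne_zero
      · exact h4
    subst hb
    have h4 : a ^ 3 - a = 0 := by linear_combination -h
    have h5 : 3 * a ^ 2 - 1 = 0 := by linear_combination -h1
    have h6 : (2 : k) = 0 := by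
      linear_combination (-(9 * a)) * h4 + (3 * a ^ 2 - 2) * h5
    exact two_ne_zero h6

theorem aff_eq {k : Type} [Field k] [CharZero k] {a b : k} (h : OnC a b) :
    aff a b = .some a b (aff_nonsingular h) := by
  unfold aff
  rw [dif_pos (aff_nonsingular h)]

theorem sum_alg {A : Type} [CommRing A] (x₁ y₁ x₂ y₂ l : A) (h1 : OnC x₁ y₁) (_h2 : OnC x₂ y₂)
    (h3 : l * (x₁ - x₂) = y₁ - y₂) (h4 : l * (y₁ + y₂) = x₁ ^ 2 + x₁ * x₂ + x₂ ^ 2 - 1) :
    OnC (l ^ 2 - x₁ - x₂) (-(l * (l ^ 2 - x₁ - x₂ - x₁) + y₁)) := by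
  unfold OnC at *
  linear_combination h1 + (l ^ 2 - x₁ - x₂ - x₁) * h4 - (l ^ 2 - x₁ - x₂ - x₁) * l * h3

theorem negY_W {k : Type} [Field k] (x y : k) : (W k).negY x y = -y := by
  simp [WeierstrassCurve.Affine.negY]

theorem slope_eq {k : Type} [Field k] [CharZero k] [DecidableEq k] (x₁ y₁ x₂ y₂ l : k)
    (h1 : OnC x₁ y₁) (h2 : OnC x₂ y₂) (h3 : l * (x₁ - x₂) = y₁ - y₂)
    (h4 : l * (y₁ + y₂) = x₁ ^ 2 + x₁ * x₂ + x₂ ^ 2 - 1) (h5 : x₁ ≠ x₂ ∨ y₁ + y₂ ≠ 0) :
    (W k).slope x₁ x₂ y₁ y₂ = l := by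
  by_cases hx : x₁ = x₂
  · have hy : y₁ + y₂ ≠ 0 := h5.resolve_left (fun h => h hx)
    subst hx
    have hyy : y₁ = y₂ := by
      have : y₁ - y₂ = 0 := by rw [← h3, sub_self, mul_zero]
      exact sub_eq_zero.1 this
    subst hyy
    rw [WeierstrassCurve.Affine.slope_of_Y_ne rfl (by
      rw [negY_W]
      intro h
      apply hy
      linear_combination h)]
    rw [negY_W]
    have h6 : y₁ - -y₁ ≠ 0 := by
      intro h
      apply hy
      linear_combination h
    rw [div_eq_iff h6]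
    simp only [mul_zero, zero_mul, add_zero, sub_zero]
    linear_combination -h4
  · rw [WeierstrassCurve.Affine.slope_of_X_ne hx, div_eq_iff (sub_ne_zero.2 hx)]
    exact h3.symm

theorem suma : SumaStatement := by
  refine ⟨?_, ?_, ?_⟩
  · intro A _ x₁ y₁ x₂ y₂ l h1 h2 h3 h4
    exact sum_alg x₁ y₁ x₂ y₂ l h1 h2 h3 h4
  · intro k _ _ _ x₁ y₁ x₂ y₂ l h1 h2 h3 h4 h5
    have hs := slope_eq x₁ y₁ x₂ y₂ l h1 h2 h3 h4 h5
    have hxy : ¬(x₁ = x₂ ∧ y₁ = (W k).negY x₂ y₂) := by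
      rintro ⟨hx, hy⟩
      rw [negY_W] at hy
      rcases h5 with h | h
      · exact h hx
      · exact h (by rw [hy]; ring)
    rw [aff_eq h1, aff_eq h2, aff_eq (sum_alg x₁ y₁ x₂ y₂ l h1 h2 h3 h4),
      WeierstrassCurve.Affine.Point.add_some hxy]
    have e1 : (W k).addX x₁ x₂ ((W k).slope x₁ x₂ y₁ y₂) = l ^ 2 - x₁ - x₂ := by
      rw [hs, WeierstrassCurve.Affine.addX]
      ring
    have e2 : (W k).addY x₁ x₂ y₁ ((W k).slope x₁ x₂ y₁ y₂)
        = -(l * (l ^ 2 - x₁ - x₂ - x₁) + y₁) := by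
      rw [WeierstrassCurve.Affine.addY, e1, negY_W, WeierstrassCurve.Affine.negAddY, e1, hs]
    simp only [e1, e2]
  · intro k _ _ _ x₁ y₁ x₂ y₂ h1 h2 h
    by_contra hc
    push Not at hc
    obtain ⟨hx, hy⟩ := hc
    apply h
    rw [aff_eq h1, aff_eq h2]
    exact WeierstrassCurve.Affine.Point.add_of_Y_eq hx (by rw [negY_W]; linear_combination hy)

end Pool.Agent.Ell.H90
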